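import Pool.Agent.V11169.Circ10

/-!
# Circulant matrices with prescribed unit determinant over finite local rings

Let `R` be a finite commutative local ring (for instance a finite commutative chain ring) with
residue field of order `q`, a power of the prime `p`, let `n = p ^ k * m` with `m` prime to `p`,
and let `S` be the set of all sums `x_0 ^ (p ^ k) + p x_1 ^ (p ^ (k - 1)) + ... + p ^ k x_k` with
`x_j` in `R`.  A unit `a` of `R` is the determinant of an `n × n` circulant matrix exactly when it
lies in `S`, and then the number of such matrices is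
`|R| ^ n / |S| * ∏ (1 - q ^ (- ord_d q)) ^ (φ d / ord_d q)`, over the divisors `d ≠ 1` of `m`.
-/

namespace Pool.Agent.Results.MP_d6eb29_al.UnitCount

open IsLocalRing

universe u

/-- The circulant matrix with first row `v`.  Rows, columns and the entries of `v` are indexed by
`0, ..., n - 1`, and entry `(i, j)` is `v ((j - i) mod n)`. -/
def circ {R : Type u} (n : ℕ) (v : ZMod n → R) : Matrix (ZMod n) (ZMod n) R :=
  Matrix.of fun i j => v (j - i)

/-- `c_n(R, a)`: the number of `n × n` circulant matrices over `R` of determinant `a`. -/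
noncomputable def circCount (n : ℕ) [NeZero n] (R : Type u) [CommRing R] (a : R) : ℕ :=
  Nat.card {A : Matrix (ZMod n) (ZMod n) R // (∃ v, A = circ n v) ∧ A.det = a}

/-- `S_k(R)`: all sums `x_0 ^ (p ^ k) + p x_1 ^ (p ^ (k - 1)) + ... + p ^ k x_k`, `x_j ∈ R`. -/
def powerSums (p k : ℕ) (R : Type u) [CommRing R] : Set R :=
  {a | ∃ x : ℕ → R, a = ∑ j ∈ Finset.range (k + 1), (p : R) ^ j * (x j) ^ (p ^ (k - j))}

/-- The order of the residue field. -/
noncomputable def resCard (R : Type u) [CommRing R] [IsLocalRing R] : ℕ :=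
  Nat.card (ResidueField R)

theorem arith (R : Type u) [CommRing R] [IsLocalRing R] [Finite R] (p : ℕ) [Fact p.Prime]
    [CharP (ResidueField R) p] (m : ℕ) (hm : ¬ p ∣ m) :
    ((V11169.Circ.uc (Polynomial.X ^ m - 1 : Polynomial (ResidueField R)) : ℕ) : ℚ) =
      (resCard R : ℚ) ^ m * ((1 - 1 / (resCard R : ℚ)) * ∏ d ∈ m.divisors.erase 1,
        (1 - 1 / (resCard R : ℚ) ^ orderOf ((resCard R : ℕ) : ZMod d)) ^
          (Nat.totient d / orderOf ((resCard R : ℕ) : ZMod d))) := by
  classical
  have hm0 : 0 < m := Nat.pos_of_ne_zero (fun h => hm (by rw [h]; exact dvd_zero p))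
  set q := resCard R with hq
  have hq1 : 1 < q := by
    rw [hq]
    exact Finite.one_lt_card
  have hqq : (q : ℚ) ≠ 0 := by positivity
  rw [V11169.Circ.uc_X_pow p m hm]
  have h1 : ∀ d ∈ m.divisors, (((Nat.card (ResidueField R) ^ (orderOf ((Nat.card
      (ResidueField R) : ℕ) : ZMod d)) - 1) ^ (Nat.totient d / orderOf ((Nat.card
      (ResidueField R) : ℕ) : ZMod d)) : ℕ) : ℚ) = (q : ℚ) ^ (Nat.totient d) *
        (1 - 1 / (q : ℚ) ^ orderOf ((q : ℕ) : ZMod d)) ^
          (Nat.totient d / orderOf ((q : ℕ) : ZMod d)) := by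
    intro d hd
    have hdm := Nat.dvd_of_mem_divisors hd
    obtain ⟨_, h2, h3⟩ := V11169.Circ.cyc_prod (F := ResidueField R) p d
      (fun h => hm (h.trans hdm))
    change (((q ^ (orderOf ((q : ℕ) : ZMod d)) - 1) ^ (Nat.totient d /
      orderOf ((q : ℕ) : ZMod d)) : ℕ) : ℚ) = _
    change orderOf ((q : ℕ) : ZMod d) ∣ _ at h2
    change 0 < orderOf ((q : ℕ) : ZMod d) at h3
    rw [Nat.cast_pow, Nat.cast_sub (Nat.one_le_pow _ _ (by omega)), Nat.cast_pow, Nat.cast_one]
    have h4 : (q : ℚ) ^ (orderOf ((q : ℕ) : ZMod d)) - 1 = (q : ℚ) ^ (orderOf ((q : ℕ) : ZMod d)) *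
        (1 - 1 / (q : ℚ) ^ orderOf ((q : ℕ) : ZMod d)) := by
      field_simp
    rw [h4, mul_pow, ← pow_mul, Nat.mul_div_cancel' h2]
  rw [Nat.cast_prod, Finset.prod_congr rfl h1, Finset.prod_mul_distrib]
  congr 1
  · rw [Finset.prod_pow_eq_pow_sum, Nat.sum_totient]
  · rw [← Finset.mul_prod_erase _ _ (Nat.one_mem_divisors.2 hm0.ne')]
    congr 1
    have h5 : orderOf ((q : ℕ) : ZMod 1) = 1 := by
      rw [orderOf_eq_one_iff]
      exact Subsingleton.elim _ _
    rw [h5]
    simp

/-- The answer to the question. -/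
theorem result (R : Type u) [CommRing R] [IsLocalRing R] [Finite R]
    (p : ℕ) (hp : p.Prime) (hpq : p ∣ resCard R)
    (n k m : ℕ) [NeZero n] (hn : n = p ^ k * m) (hm : ¬ p ∣ m) (a : R) (ha : IsUnit a) :
    (a ∈ powerSums p k R → (circCount n R a : ℚ) =
      (Nat.card R : ℚ) ^ n / (Nat.card (powerSums p k R) : ℚ) *
        ∏ d ∈ m.divisors.erase 1,
          (1 - 1 / (resCard R : ℚ) ^ orderOf ((resCard R : ℕ) : ZMod d)) ^
            (Nat.totient d / orderOf ((resCard R : ℕ) : ZMod d))) ∧
    (a ∉ powerSums p k R → circCount n R a = 0) ∧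
    ((p : R) = 0 → powerSums p k R = Set.range fun x : R => x ^ (p ^ k)) ∧
    (maximalIdeal R = Ideal.span {(p : R)} → powerSums p k R = Set.univ) := by
  have : Fact p.Prime := ⟨hp⟩
  have hchar : CharP (ResidueField R) p := by
    obtain ⟨p', hp'⟩ := CharP.exists (ResidueField R)
    have := Fintype.ofFinite (ResidueField R)
    obtain ⟨f, hf1, hf2⟩ := FiniteField.card (ResidueField R) p'
    have h1 : p ∣ p' ^ (f : ℕ) := by
      rw [← hf2, ← Nat.card_eq_fintype_card]
      exact hpq
    have h2 := (Nat.prime_dvd_prime_iff_eq hp hf1).1 (hp.dvd_of_dvd_pow h1)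
    rw [h2]
    exact hp'
  have hS : ∀ b : R, b ∈ powerSums p k R ↔ b ∈ V11169.Circ.gring p k R := fun b =>
    (V11169.Circ.mem_gring p).symm
  have hcount : ∀ b : R, circCount n R b = V11169.Circ.cn n R b := fun b => rfl
  refine ⟨?_, ?_, ?_, ?_⟩
  · intro haS
    rw [hS] at haS
    rw [hcount, V11169.Circ.cn_const n a ha ((V11169.Circ.mem_Dm_iff p n k m hn hm a ha).2 haS)]
    have e1 := V11169.Circ.card_units_eq (R := R) p n k m hn hm
    have e2 := V11169.Circ.card_units (R := R) p n k m hn hm
    have e3 := V11169.Circ.card_gring_units (R := R) p k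
    have e4 := arith R p m hm
    have hcard : Nat.card (powerSums p k R) = Nat.card (V11169.Circ.gring p k R) :=
      Nat.card_congr (Equiv.subtypeEquivRight hS)
    rw [hcard]
    set q := resCard R with hq
    change _ * q ^ m = _ at e2
    change _ * q = (q - 1) * _ at e3
    have hq1 : 1 < q := by
      rw [hq]
      exact Finite.one_lt_card
    set P : ℚ := ∏ d ∈ m.divisors.erase 1, (1 - 1 / (q : ℚ) ^ orderOf ((q : ℕ) : ZMod d)) ^
            (Nat.totient d / orderOf ((q : ℕ) : ZMod d)) with hP
    set V := Nat.card {v : ZMod n → R // IsUnit (V11169.Circ.cir n v).det} with hV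
    set U := Nat.card {a : R // IsUnit a ∧ a ∈ V11169.Circ.gring p k R} with hU
    set S := Nat.card (V11169.Circ.gring p k R) with hSS
    set c := V11169.Circ.cn n R 1 with hc
    have hS0 : 0 < S := Nat.card_pos
    have e1q : (V : ℚ) = U * c := by exact_mod_cast e1
    have e2q : (V : ℚ) * (q : ℚ) ^ m = ((V11169.Circ.uc (Polynomial.X ^ m - 1 :
        Polynomial (ResidueField R)) : ℕ) : ℚ) * (Nat.card R : ℚ) ^ n := by exact_mod_cast e2
    have e3q : (U : ℚ) * q = ((q : ℚ) - 1) * S := by
      have : (U : ℚ) * q = ((q - 1 : ℕ) : ℚ) * S := by exact_mod_cast e3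
      rw [this, Nat.cast_sub hq1.le, Nat.cast_one]
    have hqpos : (0 : ℚ) < q := by
      have : 0 < q := by omega
      exact_mod_cast this
    have hqm : (q : ℚ) ^ m ≠ 0 := by positivity
    have hq1' : (q : ℚ) - 1 ≠ 0 := by
      have : (1 : ℚ) < q := by exact_mod_cast hq1
      linarith
    have hS0' : (S : ℚ) ≠ 0 := by exact_mod_cast hS0.ne'
    rw [e4] at e2q
    have h5 : (V : ℚ) = (1 - 1 / (q : ℚ)) * P * (Nat.card R : ℚ) ^ n := by
      apply mul_right_cancel₀ hqm
      rw [e2q]
      ring
    have h6 : (U : ℚ) = (1 - 1 / (q : ℚ)) * S := by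
      apply mul_right_cancel₀ hqpos.ne'
      rw [e3q]
      field_simp
    have h7 : (1 - 1 / (q : ℚ)) ≠ 0 := by
      have : (1 - 1 / (q : ℚ)) = (q - 1) / q := by field_simp
      rw [this]
      exact div_ne_zero hq1' hqpos.ne'
    rw [e1q, h6] at h5
    have h8 : (S : ℚ) * c = P * (Nat.card R : ℚ) ^ n := by
      apply mul_left_cancel₀ h7
      rw [← mul_assoc, h5]
      ring
    rw [div_mul_eq_mul_div, eq_div_iff hS0', mul_comm (c : ℚ), h8, mul_comm]
  · intro haS
    rw [hS] at haS
    rw [hcount, V11169.Circ.cn_eq]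
    have hempty : IsEmpty {v : ZMod n → R // (V11169.Circ.cir n v).det = a} := by
      constructor
      rintro ⟨v, hv⟩
      apply haS
      rw [← hv]
      exact V11169.Circ.det_cir_mem p n k m hn v
    exact Nat.card_of_isEmpty
  · intro hp0
    ext b
    simp only [powerSums, Set.mem_ofPred_eq, Set.mem_range]
    constructor
    · rintro ⟨x, rfl⟩
      refine ⟨x 0, ?_⟩
      rw [Finset.sum_range_succ']
      simp [hp0]
    · rintro ⟨x, rfl⟩
      refine ⟨fun _ => x, ?_⟩
      rw [Finset.sum_range_succ']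
      simp [hp0]
  · intro hmax
    have hall : ∀ (k : ℕ) (b : R), b ∈ V11169.Circ.gring p k R := by
      intro k
      induction k with
      | zero =>
        intro b
        have := V11169.Circ.pow_mem p (k := 0) b
        simpa using this
      | succ k ih =>
        intro b
        have := Fintype.ofFinite (ResidueField R)
        obtain ⟨f, _, hf⟩ := FiniteField.card (ResidueField R) p
        have hpow : (residue R b) ^ (p ^ (f * (k + 1))) = residue R b := by
          have := FiniteField.pow_card_pow (k + 1) (residue R b)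
          rwa [hf, ← pow_mul] at this
        have hle : k + 1 ≤ f * (k + 1) := Nat.le_mul_of_pos_left _ f.2
        set x := b ^ (p ^ (f * (k + 1) - (k + 1))) with hx
        have h1 : residue R (b - x ^ (p ^ (k + 1))) = 0 := by
          rw [map_sub, map_pow, hx, map_pow, ← pow_mul, ← pow_add, Nat.sub_add_cancel hle, hpow,
            sub_self]
        rw [residue_eq_zero_iff, hmax, Ideal.mem_span_singleton] at h1
        obtain ⟨s, hs⟩ := h1
        have h2 : b = x ^ (p ^ (k + 1)) + p * s := by rw [← hs]; ring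
        obtain ⟨y, hy⟩ := (V11169.Circ.mem_gring p).1 (ih s)
        have h3 : (p : R) * s ∈ V11169.Circ.gring p (k + 1) R := by
          rw [hy, Finset.mul_sum]
          apply Subring.sum_mem
          intro j hj
          have hj' : j + 1 ≤ k + 1 := Nat.succ_le_of_lt (Finset.mem_range.1 hj)
          have h4 := V11169.Circ.gen_mem p hj' (y j)
          convert h4 using 1
          rw [show k + 1 - (j + 1) = k - j by omega, pow_succ]
          ring
        rw [h2]
        exact Subring.add_mem _ (V11169.Circ.pow_mem p x) h3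
    ext b
    rw [hS]
    simp [hall k b]

end Pool.Agent.Results.MP_d6eb29_al.UnitCount
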